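import Mathlib

namespace Pool.Agent.Results.MP_0f9b8a_co.Oscillate

open Filter Topology MvPolynomial Finset

/-- value of the rational function P/Q at a pair of naturals -/
noncomputable def ev (P Q : MvPolynomial (Fin 2) ℚ) (a b : ℕ) : ℝ :=
  ((eval ![(a : ℚ), (b : ℚ)] P / eval ![(a : ℚ), (b : ℚ)] Q : ℚ) : ℝ)

noncomputable def A : MvPolynomial (Fin 2) ℚ := 100000 * (X 0 + X 1)
noncomputable def B : MvPolynomial (Fin 2) ℚ := 1 + 100000 ^ 3 * (X 0 + X 1 - 2)
noncomputable def D : MvPolynomial (Fin 2) ℚ := 1 + 100000 * (X 0 - 2) ^ 2 * (X 1 * (X 1 + 1)) ^ 4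
noncomputable def N : MvPolynomial (Fin 2) ℚ :=
  X 0 * X 1 * B * D + 100000 ^ 2 * A * D + (X 1 * (X 1 + 1)) ^ 4 * A * B

noncomputable def f1 (a b : ℝ) : ℝ := a * b / (100000 * (a + b))
noncomputable def f2 (a b : ℝ) : ℝ := 100000 ^ 2 / (1 + 100000 ^ 3 * (a + b - 2))
noncomputable def f3 (a b : ℝ) : ℝ :=
  (b * (b + 1)) ^ 4 / (1 + 100000 * (a - 2) ^ 2 * (b * (b + 1)) ^ 4)

lemma ev_eq {a b : ℕ} (ha : 1 ≤ a) (hb : 1 ≤ b) :
    ev N (A * B * D) a b = f1 a b + f2 a b + f3 a b := by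
  have ha' : (1 : ℝ) ≤ a := by exact_mod_cast ha
  have hb' : (1 : ℝ) ≤ b := by exact_mod_cast hb
  have h1 : (0 : ℝ) < 1 + 100000 ^ 3 * (a + b - 2) := by nlinarith
  simp only [ev, N, A, B, D, f1, f2, f3, map_add, map_mul, map_pow, map_sub, eval_X, map_one,
    map_ofNat, Matrix.cons_val_zero, Matrix.cons_val_one]
  push_cast
  field_simp

lemma f1_b {a b : ℝ} (ha : 1 ≤ a) (hb : 1 ≤ b) : 0 < f1 a b ∧ f1 a b ≤ (a + b) / 100000 := by
  unfold f1
  refine ⟨by positivity, ?_⟩
  rw [div_le_div_iff₀ (by positivity) (by positivity)]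
  nlinarith [mul_pos (by linarith : 0 < a) (by linarith : 0 < b)]

lemma f2_b {a b : ℝ} (h : 3 ≤ a + b) : 0 ≤ f2 a b ∧ f2 a b ≤ 1 / 100000 := by
  unfold f2
  have h1 : (0 : ℝ) < 1 + 100000 ^ 3 * (a + b - 2) := by nlinarith
  refine ⟨by positivity, ?_⟩
  rw [div_le_div_iff₀ h1 (by positivity)]
  nlinarith

lemma f3_b {a : ℕ} {b : ℝ} (h : a ≠ 2) : 0 ≤ f3 a b ∧ f3 a b ≤ 1 / 100000 := by
  unfold f3
  refine ⟨by positivity, ?_⟩
  rw [div_le_div_iff₀ (by positivity) (by positivity)]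
  have h1 : (1 : ℝ) ≤ ((a : ℝ) - 2) ^ 2 := by
    rcases (by omega : a ≤ 1 ∨ 3 ≤ a) with k | k
    · have : (a : ℝ) ≤ 1 := by exact_mod_cast k
      nlinarith
    · have : (3 : ℝ) ≤ a := by exact_mod_cast k
      nlinarith
  have h2 : (0 : ℝ) ≤ (b * (b + 1)) ^ 4 := by positivity
  nlinarith

lemma f3_2 (b : ℝ) : f3 2 b = (b * (b + 1)) ^ 4 := by simp [f3]

lemma f3_nn (a b : ℝ) : 0 ≤ f3 a b := by unfold f3; positivity

noncomputable def w (d : ℕ) : ℝ := ((d - 1).factorial : ℝ) ^ 4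

lemma w_pos (d : ℕ) : 0 < w d := by unfold w; positivity

lemma w_step {b : ℕ} (hb : 1 ≤ b) : w (b + 1) = (b : ℝ) ^ 4 * w b := by
  obtain ⟨c, rfl⟩ : ∃ c, b = c + 1 := ⟨b - 1, by omega⟩
  simp only [w, Nat.add_sub_cancel, Nat.factorial_succ]
  push_cast; ring

lemma w_conv {a b : ℕ} (ha : 1 ≤ a) (hb : 1 ≤ b) : w a * w b ≤ w (a + b - 1) := by
  unfold w
  rw [← mul_pow]
  gcongr
  have := Nat.le_of_dvd (Nat.factorial_pos _) (Nat.factorial_mul_factorial_dvd_factorial_add (a - 1) (b - 1))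
  rw [show a + b - 1 - 1 = a - 1 + (b - 1) by omega]
  exact_mod_cast this

noncomputable def c (d : ℕ) : ℝ := if d % 2 = 0 then 1 else 12 / 100000

section
variable {n : ℕ → ℝ} {s : ℝ} (h1 : 0 < n 1)
  (hr : ∀ d, 2 ≤ d → n d = ∑ a ∈ Ico 1 d, ev N (A * B * D) a (d - a) * n a * n (d - a))
include h1 hr

lemma n_pos (d : ℕ) : 1 ≤ d → 0 < n d := by
  induction d using Nat.strong_induction_on with
  | _ d ih =>
    intro hd
    rcases hd.eq_or_lt with rfl | hd
    · exact h1
    rw [hr d hd]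
    refine sum_pos (fun a ha => ?_) ⟨1, by simp; omega⟩
    rw [mem_Ico] at ha
    have k1 := ih a ha.2 ha.1
    have k2 := ih (d - a) (by omega) (by omega)
    have ha' : (1 : ℝ) ≤ a := by exact_mod_cast ha.1
    have hb' : (1 : ℝ) ≤ (d - a : ℕ) := by exact_mod_cast (by omega : 1 ≤ d - a)
    have := (f1_b ha' hb').1
    have := f3_nn a (d - a : ℕ)
    have : 0 ≤ f2 a (d - a : ℕ) := by
      unfold f2
      exact div_nonneg (by norm_num) (by nlinarith)
    rw [ev_eq ha.1 (by omega)]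
    positivity

lemma lower (hs : 0 < s) (h2 : n 2 = s ^ 2) (j : ℕ) : w (2 * j + 2) * s ^ (2 * j + 2) ≤ n (2 * j + 2) := by
  induction j with
  | zero => simp [w, h2]
  | succ j ih =>
    have np := n_pos h1 hr
    rw [hr _ (by omega)]
    refine le_trans ?_ (single_le_sum (a := 2) (fun a ha => ?_) (by simp))
    · rw [show 2 * (j + 1) + 2 - 2 = 2 * j + 2 by omega, ev_eq (by omega) (by omega), h2,
        show 2 * (j + 1) + 2 = 2 * j + 2 + 1 + 1 by ring, w_step (by omega), w_step (by omega)]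
      have hb' : (1 : ℝ) ≤ (2 * j + 2 : ℕ) := by exact_mod_cast (by omega : 1 ≤ 2 * j + 2)
      have k1 := (f1_b (a := (2 : ℕ)) (by norm_num) hb').1
      have k2 := (f2_b (a := (2 : ℕ)) (b := (2 * j + 2 : ℕ)) (by push_cast at *; linarith)).1
      have k3 := f3_2 (2 * j + 2 : ℕ)
      have k4 := np (2 * j + 2) (by omega)
      calc _ = (((2 * j + 2 : ℕ) : ℝ) * ((2 * j + 2 : ℕ) + 1)) ^ 4 * s ^ 2 *
            (w (2 * j + 2) * s ^ (2 * j + 2)) := by push_cast; ring
        _ ≤ (((2 * j + 2 : ℕ) : ℝ) * ((2 * j + 2 : ℕ) + 1)) ^ 4 * s ^ 2 * n (2 * j + 2) := by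
            gcongr
        _ ≤ _ := by
            gcongr
            rw [← k3]
            push_cast at *
            linarith
    · rw [mem_Ico] at ha
      have k1 := np a ha.1
      have k2 := np (2 * (j + 1) + 2 - a) (by omega)
      have ha' : (1 : ℝ) ≤ a := by exact_mod_cast ha.1
      have hb' : (1 : ℝ) ≤ (2 * (j + 1) + 2 - a : ℕ) := by
        exact_mod_cast (by omega : 1 ≤ 2 * (j + 1) + 2 - a)
      have := (f1_b ha' hb').1
      have := f3_nn a (2 * (j + 1) + 2 - a : ℕ)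
      have : 0 ≤ f2 a (2 * (j + 1) + 2 - a : ℕ) := by
        unfold f2
        exact div_nonneg (by norm_num) (by nlinarith)
      rw [ev_eq ha.1 (by omega)]
      positivity

lemma upper (hs : 0 < s) (h2 : n 2 = s ^ 2) (d : ℕ) :
    1 ≤ d → n d ≤ c d * (2 - 1 / d) * (w d * s ^ d) := by
  have np := n_pos h1 hr
  induction d using Nat.strong_induction_on with
  | _ d ih =>
    intro hd
    rcases (by omega : d = 1 ∨ d = 2 ∨ 3 ≤ d) with rfl | rfl | hd3
    · have e := hr 2 le_rfl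
      simp only [Nat.Ico_succ_singleton, sum_singleton] at e
      rw [h2, ev_eq (by omega) (by omega)] at e
      have k1 := (f1_b (a := (1 : ℕ)) (b := (2 - 1 : ℕ)) (by norm_num) (by norm_num)).1
      have k3 := f3_nn (1 : ℕ) (2 - 1 : ℕ)
      have k2 : f2 (1 : ℕ) (2 - 1 : ℕ) = 100000 ^ 2 := by norm_num [f2]
      have : (100000 * n 1) ^ 2 ≤ s ^ 2 := by
        rw [e, k2]
        norm_num at *
        nlinarith [mul_pos h1 h1]
      have := pow_le_pow_left₀ (by positivity : 0 ≤ 100000 * n 1) (le_refl _) 2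
      have k4 : 100000 * n 1 ≤ s := by nlinarith
      norm_num [c, w]
      linarith
    · rw [h2]
      norm_num [c, w]
      nlinarith [pow_pos hs 2]
    · obtain ⟨b, rfl⟩ : ∃ b, d = b + 2 := ⟨d - 2, by omega⟩
      have hb : 1 ≤ b := by omega
      have hbr : (1 : ℝ) ≤ b := by exact_mod_cast hb
      have c1 : ∀ x, 12 / 100000 ≤ c x ∧ c x ≤ 1 := by
        intro x; unfold c; split_ifs <;> norm_num
      have crude : ∀ a, 1 ≤ a → a < b + 2 → n a ≤ 2 * (w a * s ^ a) := by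
        intro a ha hlt
        refine (ih a hlt ha).trans ?_
        have := w_pos a
        have h3 : (0 : ℝ) ≤ 1 / a := by positivity
        have h4 : (1 : ℝ) / a ≤ 1 := by
          rw [div_le_one (by positivity)]; exact_mod_cast ha
        have := c1 a
        gcongr
        nlinarith
      have term : ∀ a ∈ Ico 1 (b + 2), ev N (A * B * D) a (b + 2 - a) * n a * n (b + 2 - a) ≤
          (b + 4) / 100000 * (4 * (w (b + 1) * s ^ (b + 2))) +
            if a = 2 then ((b : ℝ) * (b + 1)) ^ 4 * s ^ 2 * n b else 0 := by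
        intro a ha
        rw [mem_Ico] at ha
        have ha' : (1 : ℝ) ≤ a := by exact_mod_cast ha.1
        have hb' : (1 : ℝ) ≤ (b + 2 - a : ℕ) := by exact_mod_cast (by omega : 1 ≤ b + 2 - a)
        have e : (a : ℝ) + (b + 2 - a : ℕ) = b + 2 := by
          exact_mod_cast (by omega : a + (b + 2 - a) = b + 2)
        have k1 := (f1_b ha' hb').2
        have k2 := (f2_b (a := a) (b := (b + 2 - a : ℕ)) (by linarith)).2
        have p1 := np a ha.1
        have p2 := np (b + 2 - a) (by omega)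
        have pr : n a * n (b + 2 - a) ≤ 4 * (w (b + 1) * s ^ (b + 2)) := by
          have q1 := crude a ha.1 ha.2
          have q2 := crude (b + 2 - a) (by omega) (by omega)
          have q3 := w_conv ha.1 (by omega : 1 ≤ b + 2 - a)
          rw [show a + (b + 2 - a) - 1 = b + 1 by omega] at q3
          have := w_pos a
          calc _ ≤ (2 * (w a * s ^ a)) * (2 * (w (b + 2 - a) * s ^ (b + 2 - a))) := by gcongr
            _ = 4 * ((w a * w (b + 2 - a)) * s ^ (a + (b + 2 - a))) := by rw [pow_add]; ring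
            _ ≤ _ := by
              rw [show a + (b + 2 - a) = b + 2 by omega]
              gcongr
        rw [ev_eq ha.1 (by omega), mul_assoc]
        rw [e] at k1
        have pp := mul_pos p1 p2
        split_ifs with h
        · subst h
          simp only [Nat.add_sub_cancel, Nat.cast_ofNat] at *
          rw [f3_2, add_mul, mul_assoc _ (s ^ 2), ← h2]
          gcongr
          linarith
        · have k3 := (f3_b (b := (b + 2 - a : ℕ)) h).2
          rw [add_zero]
          gcongr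
          linarith
      rw [hr _ (by omega)]
      refine (sum_le_sum term).trans ?_
      rw [sum_add_distrib, sum_const, sum_ite_eq', if_pos (by simp; omega), Nat.card_Ico,
        show b + 2 - 1 = b + 1 by omega, nsmul_eq_mul]
      have i1 := ih b (by omega) hb
      have cc : c (b + 2) = c b := by unfold c; rw [Nat.add_mod_right]
      rw [cc, w_step (b := b + 1) (by omega)]
      have ws := w_step hb
      have wp := w_pos b
      have sp := pow_pos hs b
      have cb := c1 b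
      have i2 : ((b : ℝ) * (b + 1)) ^ 4 * s ^ 2 * n b ≤
          c b * (2 - 1 / b) * ((b + 1) ^ 4 * (w (b + 1) * s ^ (b + 2))) := by
        calc _ ≤ ((b : ℝ) * (b + 1)) ^ 4 * s ^ 2 * (c b * (2 - 1 / b) * (w b * s ^ b)) := by gcongr
          _ = _ := by rw [ws]; ring
      have i3 : ((b : ℝ) + 1) * ((b + 4) / 100000 * 4) ≤
          c b * (1 / b - 1 / (b + 2)) * (b + 1) ^ 4 := by
        have e : (1 : ℝ) / b - 1 / (b + 2) = 2 / (b * (b + 2)) := by field_simp; ring
        have : ((b : ℝ) + 1) * ((b + 4) / 100000 * 4) ≤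
            12 / 100000 * (2 / (b * (b + 2))) * (b + 1) ^ 4 := by
          rw [show (12 : ℝ) / 100000 * (2 / (b * (b + 2))) * (b + 1) ^ 4
            = 24 / 100000 * (b + 1) ^ 4 / (b * (b + 2)) by ring, le_div_iff₀ (by positivity)]
          nlinarith [pow_pos (by linarith : (0 : ℝ) < b) 2, pow_pos (by linarith : (0 : ℝ) < b) 3,
            pow_pos (by linarith : (0 : ℝ) < b) 4]
        rw [e]
        refine this.trans ?_
        gcongr
        exact cb.1
      have wp' : 0 < w (b + 1) * s ^ (b + 2) := mul_pos (w_pos _) (pow_pos hs _)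
      have i4 := mul_le_mul_of_nonneg_right i3 wp'.le
      push_cast
      nlinarith

end

lemma fac (d : ℕ) (hd : 1 ≤ d) : ((d : ℝ) / 6) ^ d < (d - 1).factorial := by
  have h1 := Real.pow_div_factorial_le_exp (d : ℝ) (by positivity) d
  have h2 : Real.exp d ≤ 3 ^ d := by
    rw [← mul_one (d : ℝ), Real.exp_nat_mul]
    gcongr
    exact Real.exp_one_lt_d9.le.trans (by norm_num)
  have h3 : (d : ℝ) < 2 ^ d := by exact_mod_cast Nat.lt_two_pow_self
  have h4 : (d.factorial : ℝ) = d * (d - 1).factorial := by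
    exact_mod_cast (Nat.mul_factorial_pred (by omega)).symm
  rw [div_le_iff₀ (by positivity)] at h1
  rw [div_pow, div_lt_iff₀ (by positivity), show (6 : ℝ) = 3 * 2 by norm_num, mul_pow]
  calc _ ≤ 3 ^ d * (d.factorial : ℝ) := h1.trans (by gcongr)
    _ = 3 ^ d * (d - 1).factorial * d := by rw [h4]; ring
    _ < 3 ^ d * (d - 1).factorial * 2 ^ d := by gcongr
    _ = _ := by ring

theorem result : ∃ P Q : MvPolynomial (Fin 2) ℚ,
    (∀ a b : ℕ, 1 ≤ a → 1 ≤ b → eval ![(a : ℚ), (b : ℚ)] Q ≠ 0 ∧ 0 < ev P Q a b) ∧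
    (∃ k L : ℝ, 0 < k ∧ 0 < L ∧ Tendsto (fun p : ℕ × ℕ =>
      ev P Q p.1 p.2 / ((p.1 : ℝ) * p.2 / (p.1 + p.2)) ^ k) (atTop ×ˢ atTop) (𝓝 L)) ∧
    ∀ n : ℕ → ℝ, 0 < n 1 →
      (∀ d, 2 ≤ d → n d = ∑ a ∈ Ico 1 d, ev P Q a (d - a) * n a * n (d - a)) →
      ∀ d, 2 ≤ d → Even d → n (d + 1) ^ (1 / ((d : ℝ) + 1)) < n d ^ (1 / (d : ℝ)) := by
  refine ⟨N, A * B * D, fun a b ha hb => ⟨?_, ?_⟩, ⟨1, 1 / 100000, one_pos, by norm_num, ?_⟩, ?_⟩
  · have ha' : (1 : ℚ) ≤ a := by exact_mod_cast ha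
    have hb' : (1 : ℚ) ≤ b := by exact_mod_cast hb
    have h1 : (0 : ℚ) < 1 + 100000 ^ 3 * (a + b - 2) := by nlinarith
    simp only [A, B, D, map_add, map_mul, map_pow, map_sub, eval_X, map_one,
      map_ofNat, Matrix.cons_val_zero, Matrix.cons_val_one]
    positivity
  · have ha' : (1 : ℝ) ≤ a := by exact_mod_cast ha
    have hb' : (1 : ℝ) ≤ b := by exact_mod_cast hb
    have := (f1_b ha' hb').1
    have := f3_nn a b
    have : 0 ≤ f2 a b := by
      unfold f2
      exact div_nonneg (by norm_num) (by nlinarith)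
    rw [ev_eq ha hb]
    positivity
  · have t1 : Tendsto (fun p : ℕ × ℕ => 1 / 100000 + (1 / (p.1 : ℝ) + 1 / (p.2 : ℝ)))
        (atTop ×ˢ atTop) (𝓝 (1 / 100000 + (0 + 0))) :=
      tendsto_const_nhds.add ((tendsto_one_div_atTop_nhds_zero_nat.comp tendsto_fst).add
        (tendsto_one_div_atTop_nhds_zero_nat.comp tendsto_snd))
    rw [add_zero, add_zero] at t1
    have ev3 := (eventually_ge_atTop 3).prod_mk (eventually_ge_atTop (1 : ℕ))
    have key : ∀ p : ℕ × ℕ, 3 ≤ p.1 ∧ 1 ≤ p.2 → ∃ x, 0 ≤ x ∧ x ≤ 1 ∧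
        ev N (A * B * D) p.1 p.2 / ((p.1 : ℝ) * p.2 / (p.1 + p.2)) ^ (1 : ℝ) =
          1 / 100000 + x * (1 / (p.1 : ℝ) + 1 / (p.2 : ℝ)) := by
      rintro ⟨a, b⟩ ⟨ha, hb⟩
      simp only at ha hb ⊢
      have ha' : (3 : ℝ) ≤ a := by exact_mod_cast ha
      have hb' : (1 : ℝ) ≤ b := by exact_mod_cast hb
      have k2 := f2_b (a := a) (b := b) (by linarith)
      have k3 := f3_b (a := a) (b := b) (by omega)
      refine ⟨f2 a b + f3 a b, by linarith, by linarith, ?_⟩
      rw [ev_eq (by omega) hb, Real.rpow_one, f1]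
      field_simp
      ring
    refine tendsto_of_tendsto_of_tendsto_of_le_of_le' tendsto_const_nhds t1
      (ev3.mono fun p hp => ?_) (ev3.mono fun p hp => ?_)
    · obtain ⟨x, h0, -, e⟩ := key p hp
      rw [e]
      have : 0 ≤ x * (1 / (p.1 : ℝ) + 1 / (p.2 : ℝ)) := by positivity
      linarith
    · obtain ⟨x, -, h0, e⟩ := key p hp
      rw [e]
      have : 0 ≤ (1 / (p.1 : ℝ) + 1 / (p.2 : ℝ)) := by positivity
      nlinarith
  · intro n h1 hr d hd ⟨j, hj⟩
    have np := n_pos h1 hr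
    have hs : 0 < √(n 2) := Real.sqrt_pos.mpr (np 2 (by omega))
    have h2 : n 2 = √(n 2) ^ 2 := (Real.sq_sqrt (np 2 (by omega)).le).symm
    set s := √(n 2)
    have lo := lower h1 hr hs h2 (j - 1)
    rw [show 2 * (j - 1) + 2 = d by omega] at lo
    have up := upper h1 hr hs h2 (d + 1) (by omega)
    have dp : (0 : ℝ) < d := by exact_mod_cast (by omega : 0 < d)
    have wp := w_pos d
    have up' : n (d + 1) ≤ ((d : ℝ) / 6) ^ 4 * s * (w d * s ^ d) := by
      refine up.trans ?_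
      rw [c, if_neg (by omega), w_step (by omega)]
      have h3 : (0 : ℝ) ≤ 1 / ((d + 1 : ℕ) : ℝ) := by positivity
      have h4 : 0 < (d : ℝ) ^ 4 * w d * s ^ (d + 1) := by positivity
      calc _ ≤ (1 / 6 ^ 4) * ((d : ℝ) ^ 4 * w d * s ^ (d + 1)) := by
            gcongr
            linarith
        _ = _ := by ring
    have h5 : (((d : ℝ) / 6) ^ 4 * s) ^ d < n d := by
      refine lt_of_lt_of_le ?_ lo
      rw [mul_pow, ← pow_mul, mul_comm 4 d, pow_mul, w]
      gcongr
      exact fac d (by omega)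
    have nd := np d (by omega)
    have h6 : ((d : ℝ) / 6) ^ 4 * s < n d ^ (1 / (d : ℝ)) := by
      rw [one_div, Real.lt_rpow_inv_iff_of_pos (by positivity) nd.le dp, Real.rpow_natCast]
      exact h5
    rw [one_div, Real.rpow_inv_lt_iff_of_pos (np _ (by omega)).le (by positivity) (by positivity),
      Real.rpow_add (by positivity), Real.rpow_one, ← Real.rpow_mul nd.le,
      one_div_mul_cancel dp.ne', Real.rpow_one]
    calc _ ≤ ((d : ℝ) / 6) ^ 4 * s * n d := up'.trans (by gcongr)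
      _ < n d ^ (1 / (d : ℝ)) * n d := by gcongr
      _ = _ := mul_comm _ _

end Pool.Agent.Results.MP_0f9b8a_co.Oscillate
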